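import Pool.Agent.Helper55.NX2.AqBasic

/-!
# Project NX2, A4: Vinogradov's lemma and Weyl's inequality with polynomial dependence
-/

set_option autoImplicit false

open Finset
open scoped BigOperators ComplexConjugate

namespace Pool.Agent.Helper67.NX2

open Pool.Agent.Helper57.NX

noncomputable section

private theorem card_int_le25 (S : Finset ℤ) (x y : ℝ) (h : ∀ s ∈ S, x ≤ (s : ℝ) ∧ (s : ℝ) ≤ y)
    (hxy : x ≤ y) : (S.card : ℝ) ≤ y - x + 1 := by
  have h1 : S ⊆ Icc ⌈x⌉ ⌊y⌋ := by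
    intro s hs
    rw [mem_Icc]
    exact ⟨Int.ceil_le.mpr (h s hs).1, Int.le_floor.mpr (h s hs).2⟩
  have h2 := Finset.card_le_card h1
  rw [Int.card_Icc] at h2
  have h3 : ((⌊y⌋ + 1 - ⌈x⌉).toNat : ℝ) ≤ y - x + 1 := by
    rcases le_total (⌊y⌋ + 1 - ⌈x⌉) 0 with h | h
    · rw [Int.toNat_of_nonpos h]
      push_cast
      linarith
    · have h4 : (((⌊y⌋ + 1 - ⌈x⌉).toNat : ℤ) : ℝ) = ((⌊y⌋ + 1 - ⌈x⌉ : ℤ) : ℝ) := by
        rw [Int.toNat_of_nonneg h]
      have hc := Int.le_ceil x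
      have hf := Int.floor_le y
      push_cast at h4
      rw [h4]
      linarith
  have h4 : (S.card : ℝ) ≤ ((⌊y⌋ + 1 - ⌈x⌉).toNat : ℝ) := by exact_mod_cast h2
  linarith

/-- one residue class -/
private theorem class_le25 (β τ ε0 : ℝ) (n : ℤ) (K q r : ℕ) (hq : 1 ≤ q)
    (hβ : q * β = n + τ) (hτ : 0 < |τ|) (hε0 : 0 ≤ ε0) (hε1 : ε0 ≤ 1 / 2) (A : Finset ℕ)
    (hA : ∀ h ∈ A, h < K ∧ h % q = r ∧ dint (β * h) ≤ ε0) :
    (A.card : ℝ) ≤ (K / q * |τ| + 2) * (2 * ε0 / |τ| + 1) := by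
  have hq0 : (0 : ℝ) < q := by exact_mod_cast hq
  have hK0 : (0 : ℝ) ≤ K := Nat.cast_nonneg K
  obtain ⟨T, hT⟩ : ∃ T : ℕ → ℕ, ∀ h, T h = h / q := ⟨_, fun _ => rfl⟩
  set f : ℕ → ℤ := fun h => round (β * h) - (T h : ℤ) * n with hf
  have key : ∀ h ∈ A, |β * r + (T h : ℝ) * τ - (f h : ℝ)| ≤ ε0 := by
    intro h hh
    obtain ⟨_, h2, h3⟩ := hA h hh
    have h4 : (h : ℝ) = q * (T h : ℝ) + r := by
      have h40 := Nat.div_add_mod h q
      rw [h2, ← hT] at h40
      exact_mod_cast h40.symm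
    have h5 : β * r + (T h : ℝ) * τ - (f h : ℝ) = β * h - round (β * h) := by
      simp only [hf]
      push_cast
      have h6 : β * (h : ℝ) = (T h : ℝ) * (q * β) + β * r := by
        have h61 : β * (h : ℝ) = β * (q * (T h : ℝ) + r) := by rw [← h4]
        rw [h61]
        ring
      rw [hβ] at h6
      linarith [h6]
    rw [h5]
    exact h3
  -- fibres
  have hfib : ∀ m ∈ A.image f, (((A.filter (fun h => f h = m)).card : ℕ) : ℝ) ≤ 2 * ε0 / |τ| + 1 := by
    intro m _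
    have hinj : Set.InjOn (fun h : ℕ => (T h : ℤ)) (A.filter (fun h => f h = m) : Finset ℕ) := by
      intro a ha b hb hab
      rw [mem_coe, mem_filter] at ha hb
      have h1 : a / q = b / q := by
        have h10 : (T a : ℤ) = (T b : ℤ) := hab
        rw [← hT, ← hT]
        exact_mod_cast h10
      have h2 := Nat.div_add_mod a q
      have h3 := Nat.div_add_mod b q
      rw [(hA a ha.1).2.1] at h2
      rw [(hA b hb.1).2.1] at h3
      rw [← h2, ← h3, h1]
    rw [← Finset.card_image_of_injOn hinj]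
    rcases lt_or_gt_of_ne (abs_pos.mp hτ) with hneg | hpos
    · have hab : |τ| = -τ := abs_of_neg hneg
      have hb := card_int_le25 ((A.filter (fun h => f h = m)).image (fun h : ℕ => (T h : ℤ)))
        ((β * r - m - ε0) / (-τ)) ((β * r - m + ε0) / (-τ)) (by
          intro s hs
          rw [mem_image] at hs
          obtain ⟨h, hh, rfl⟩ := hs
          rw [mem_filter] at hh
          have h1 := key h hh.1
          rw [hh.2, abs_le] at h1
          have hnt : 0 < -τ := by linarith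
          constructor
          · rw [div_le_iff₀ hnt]
            push_cast
            linarith [h1.1, h1.2]
          · rw [le_div_iff₀ hnt]
            push_cast
            linarith [h1.1, h1.2]) (by
          have hnt : 0 < -τ := by linarith
          apply div_le_div_of_nonneg_right _ hnt.le
          linarith)
      refine hb.trans (le_of_eq ?_)
      rw [hab]
      have hnt : -τ ≠ 0 := by linarith
      field_simp
      ring
    · have hab : |τ| = τ := abs_of_pos hpos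
      have hb := card_int_le25 ((A.filter (fun h => f h = m)).image (fun h : ℕ => (T h : ℤ)))
        ((m - β * r - ε0) / τ) ((m - β * r + ε0) / τ) (by
          intro s hs
          rw [mem_image] at hs
          obtain ⟨h, hh, rfl⟩ := hs
          rw [mem_filter] at hh
          have h1 := key h hh.1
          rw [hh.2, abs_le] at h1
          constructor
          · rw [div_le_iff₀ hpos]
            push_cast
            linarith [h1.1, h1.2]
          · rw [le_div_iff₀ hpos]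
            push_cast
            linarith [h1.1, h1.2]) (by
          apply div_le_div_of_nonneg_right _ hpos.le
          linarith)
      refine hb.trans (le_of_eq ?_)
      rw [hab]
      have hnt : τ ≠ 0 := by linarith
      field_simp
      ring
  -- the image
  have himg : (((A.image f).card : ℕ) : ℝ) ≤ K / q * |τ| + 2 := by
    have hT0 : 0 ≤ K / q * |τ| := by positivity
    have ht : ∀ h ∈ A, (T h : ℝ) ≤ K / q := by
      intro h hh
      have h1 : (T h : ℝ) ≤ (h : ℝ) / q := by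
        rw [hT]
        exact Nat.cast_div_le
      have h2 : (h : ℝ) ≤ K := by exact_mod_cast (hA h hh).1.le
      exact h1.trans (div_le_div_of_nonneg_right h2 hq0.le)
    rcases lt_or_gt_of_ne (abs_pos.mp hτ) with hneg | hpos
    · have hab : |τ| = -τ := abs_of_neg hneg
      have hb := card_int_le25 (A.image f) (β * r + K / q * τ - ε0) (β * r + ε0) (by
          intro s hs
          rw [mem_image] at hs
          obtain ⟨h, hh, rfl⟩ := hs
          have h1 := key h hh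
          rw [abs_le] at h1
          have h2 := ht h hh
          have h3 : (0 : ℝ) ≤ (T h : ℝ) := Nat.cast_nonneg _
          constructor
          · nlinarith [h1.1, h1.2]
          · nlinarith [h1.1, h1.2]) (by
          rw [hab] at hT0
          nlinarith)
      refine hb.trans ?_
      rw [hab]
      linarith
    · have hab : |τ| = τ := abs_of_pos hpos
      have hb := card_int_le25 (A.image f) (β * r - ε0) (β * r + K / q * τ + ε0) (by
          intro s hs
          rw [mem_image] at hs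
          obtain ⟨h, hh, rfl⟩ := hs
          have h1 := key h hh
          rw [abs_le] at h1
          have h2 := ht h hh
          have h3 : (0 : ℝ) ≤ (T h : ℝ) := Nat.cast_nonneg _
          constructor
          · nlinarith [h1.1, h1.2]
          · nlinarith [h1.1, h1.2]) (by
          rw [hab] at hT0
          nlinarith)
      refine hb.trans ?_
      rw [hab]
      linarith
  have hsum : (A.card : ℝ) = ∑ m ∈ A.image f, (((A.filter (fun h => f h = m)).card : ℕ) : ℝ) := by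
    have := Finset.card_eq_sum_card_image f A
    exact_mod_cast this
  rw [hsum]
  calc ∑ m ∈ A.image f, (((A.filter (fun h => f h = m)).card : ℕ) : ℝ)
      ≤ ∑ m ∈ A.image f, (2 * ε0 / |τ| + 1) := Finset.sum_le_sum hfib
    _ = ((A.image f).card : ℝ) * (2 * ε0 / |τ| + 1) := by rw [Finset.sum_const, nsmul_eq_mul]
    _ ≤ (K / q * |τ| + 2) * (2 * ε0 / |τ| + 1) := by
        apply mul_le_mul_of_nonneg_right himg
        positivity

theorem vino (β η ε0 : ℝ) (K : ℕ) (hη : 0 < η) (hη1 : η ≤ 1) (hK : 8 / η ≤ K) (hε0 : 0 ≤ ε0)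
    (hε1 : ε0 ≤ η / 32) (G : Finset ℕ) (hG : ∀ h ∈ G, 1 ≤ h ∧ h < K ∧ dint (β * h) ≤ ε0)
    (hc : η * K ≤ G.card) :
    ∃ q : ℕ, 1 ≤ q ∧ (q : ℝ) ≤ 4 / η ∧ dint (q * β) ≤ 128 * ε0 / (η ^ 2 * K) := by
  have hηK : 8 ≤ η * K := by
    rw [div_le_iff₀ hη] at hK
    linarith
  have hK0 : (0 : ℝ) < K := by
    by_contra h
    nlinarith
  -- two close elements
  obtain ⟨q, hq1, hq2, hq3⟩ : ∃ q : ℕ, 1 ≤ q ∧ (q : ℝ) ≤ 4 / η ∧ dint (q * β) ≤ 2 * ε0 := by
    set s : ℕ := ⌊4 / η⌋₊ with hs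
    have h4 : 4 ≤ 4 / η := by
      rw [le_div_iff₀ hη]
      linarith
    have hs1 : (s : ℝ) ≤ 4 / η := Nat.floor_le (by positivity)
    have hs2 : 4 / η < s + 1 := Nat.lt_floor_add_one _
    have hs3 : 3 / η ≤ s := by
      have : 3 / η + 1 ≤ 4 / η := by
        have h5 : 4 / η = 3 / η + 1 / η := by ring
        have h6 : 1 ≤ 1 / η := by
          rw [le_div_iff₀ hη]
          linarith
        linarith
      linarith
    have hs0 : 0 < s := by
      have : (0 : ℝ) < s := lt_of_lt_of_le (by positivity) hs3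
      exact_mod_cast this
    have hs0' : (0 : ℝ) < s := by exact_mod_cast hs0
    have hmaps : ∀ h ∈ G, h / s ∈ range (K / s + 1) := by
      intro h hh
      rw [mem_range]
      exact Nat.lt_succ_of_le (Nat.div_le_div_right (hG h hh).2.1.le)
    have hcard : (range (K / s + 1)).card < G.card := by
      rw [card_range]
      have h7 : (((K / s + 1 : ℕ)) : ℝ) < G.card := by
        have h8 : ((K / s : ℕ) : ℝ) ≤ K / s := Nat.cast_div_le
        have h9 : (K : ℝ) / s ≤ η * K / 3 := by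
          rw [div_le_div_iff₀ hs0' (by norm_num)]
          have h10 : 3 ≤ η * s := by
            rw [div_le_iff₀ hη] at hs3
            linarith
          nlinarith
        push_cast
        linarith
      exact_mod_cast h7
    obtain ⟨a, ha, b, hb, hab, hab2⟩ := Finset.exists_ne_map_eq_of_card_lt_of_maps_to hcard hmaps
    wlog hlt : a < b generalizing a b
    · exact this b hb a ha hab.symm hab2.symm (lt_of_le_of_ne (not_lt.mp hlt) hab.symm)
    refine ⟨b - a, by omega, ?_, ?_⟩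
    · have h11 : b - a ≤ s := by
        have e1 := Nat.div_add_mod a s
        have e2 := Nat.div_add_mod b s
        have e3 := Nat.mod_lt b hs0
        rw [hab2] at e1
        omega
      have h12 : ((b - a : ℕ) : ℝ) ≤ s := by exact_mod_cast h11
      linarith
    · have h13 : ((b - a : ℕ) : ℝ) * β = β * b + -(β * a) := by
        rw [Nat.cast_sub hlt.le]
        ring
      rw [h13]
      refine (dint_add_le _ _).trans ?_
      rw [dint_neg]
      linarith [(hG a ha).2.2, (hG b hb).2.2]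
  refine ⟨q, hq1, hq2, ?_⟩
  have hq0 : (0 : ℝ) < q := by exact_mod_cast hq1
  have hRHS : 0 ≤ 128 * ε0 / (η ^ 2 * K) := by positivity
  rcases eq_or_lt_of_le (dint_nonneg (q * β)) with h0 | hpos
  · rw [← h0]
    exact hRHS
  set τ : ℝ := q * β - round (q * β) with hτ
  have hθ : dint (q * β) = |τ| := rfl
  rw [hθ] at hpos hq3 ⊢
  have hclass : ∀ r ∈ range q, (((G.filter (fun h => h % q = r)).card : ℕ) : ℝ) ≤
      (K / q * |τ| + 2) * (2 * ε0 / |τ| + 1) := by
    intro r _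
    apply class_le25 β τ ε0 (round (q * β)) K q r hq1 (by rw [hτ]; ring) hpos hε0 (by linarith)
    intro h hh
    rw [mem_filter] at hh
    exact ⟨(hG h hh.1).2.1, hh.2, (hG h hh.1).2.2⟩
  have hsum : (G.card : ℝ) = ∑ r ∈ range q, (((G.filter (fun h => h % q = r)).card : ℕ) : ℝ) := by
    have := Finset.card_eq_sum_card_fiberwise (f := fun h => h % q) (s := G) (t := range q)
      (fun h _ => by
        simp only [coe_range, Set.mem_Iio]
        exact Nat.mod_lt h hq1)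
    exact_mod_cast this
  have hG2 : (G.card : ℝ) ≤ q * ((K / q * |τ| + 2) * (2 * ε0 / |τ| + 1)) := by
    rw [hsum]
    refine (Finset.sum_le_sum hclass).trans (le_of_eq ?_)
    rw [Finset.sum_const, card_range, nsmul_eq_mul]
  have hG3 : q * ((K / q * |τ| + 2) * (2 * ε0 / |τ| + 1)) ≤ 4 * ε0 * K + 8 * ε0 * q / |τ| := by
    have h1 : (1 : ℝ) ≤ 2 * ε0 / |τ| := by
      rw [le_div_iff₀ hpos]
      linarith
    have h2 : q * ((K / q * |τ| + 2) * (2 * ε0 / |τ| + 1)) = (K * |τ| + 2 * q) * (2 * ε0 / |τ| + 1) := by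
      field_simp
    rw [h2]
    calc (K * |τ| + 2 * q) * (2 * ε0 / |τ| + 1) ≤ (K * |τ| + 2 * q) * (2 * ε0 / |τ| + 2 * ε0 / |τ|) := by
          apply mul_le_mul_of_nonneg_left _ (by positivity)
          linarith
      _ = 4 * ε0 * K + 8 * ε0 * q / |τ| := by
          field_simp
          ring
  have h5 : η * K ≤ 4 * ε0 * K + 8 * ε0 * q / |τ| := hc.trans (hG2.trans hG3)
  have h6 : 4 * ε0 * K ≤ η * K / 8 := by nlinarith
  have h7 : 7 / 8 * (η * K) * |τ| ≤ 8 * ε0 * q := by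
    have h8 : 7 / 8 * (η * K) ≤ 8 * ε0 * q / |τ| := by linarith
    rwa [le_div_iff₀ hpos] at h8
  have h9 : q * η ≤ 4 := by
    rwa [le_div_iff₀ hη] at hq2
  rw [le_div_iff₀ (by positivity)]
  have h10 : |τ| * (η ^ 2 * K) * (7 / 8) ≤ 8 * ε0 * (q * η) := by
    nlinarith [mul_le_mul_of_nonneg_left h7 hη.le]
  have h11 : 8 * ε0 * (q * η) ≤ 8 * ε0 * 4 := by
    apply mul_le_mul_of_nonneg_left h9 (by positivity)
  nlinarith

/-! ### Weyl -/

private theorem sum_pairs25 (F : ℕ → ℕ → ℂ) (K : ℕ) :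
    ∑ j ∈ range K, ∑ i ∈ range j, F i j = ∑ h ∈ Ico 1 K, ∑ i ∈ range (K - h), F i (i + h) := by
  rw [Finset.sum_sigma', Finset.sum_sigma']
  refine Finset.sum_nbij' (fun x => ⟨x.1 - x.2, x.2⟩) (fun x => ⟨x.2 + x.1, x.2⟩) ?_ ?_ ?_ ?_ ?_
  · rintro ⟨j, i⟩ h
    simp only [mem_sigma, mem_range, mem_Ico] at h ⊢
    omega
  · rintro ⟨h, i⟩ hh
    simp only [mem_sigma, mem_range, mem_Ico] at hh ⊢
    omega
  · rintro ⟨j, i⟩ h
    simp only [mem_sigma, mem_range] at h
    have : i + (j - i) = j := by omega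
    simp [this]
  · rintro ⟨h, i⟩ hh
    have : i + h - i = h := by omega
    simp [this]
  · rintro ⟨j, i⟩ h
    simp only [mem_sigma, mem_range] at h
    have : i + (j - i) = j := by omega
    simp [this]

private theorem vdc25 (z : ℕ → ℂ) (hz : ∀ j, ‖z j‖ = 1) (K : ℕ) :
    ‖∑ j ∈ range K, z j‖ ^ 2 ≤
      K + 2 * ∑ h ∈ Ico 1 K, ‖∑ i ∈ range (K - h), conj (z i) * z (i + h)‖ := by
  have h1 : ∀ K : ℕ, ‖∑ j ∈ range K, z j‖ ^ 2 =
      K + 2 * (∑ j ∈ range K, ∑ i ∈ range j, conj (z i) * z j).re := by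
    intro K
    induction K with
    | zero => simp
    | succ K ih =>
      rw [Finset.sum_range_succ, Finset.sum_range_succ, Complex.add_re]
      have h2 : ‖∑ j ∈ range K, z j + z K‖ ^ 2 =
          ‖∑ j ∈ range K, z j‖ ^ 2 + ‖z K‖ ^ 2 + 2 * (conj (∑ j ∈ range K, z j) * z K).re := by
        rw [← Complex.normSq_eq_norm_sq, ← Complex.normSq_eq_norm_sq, ← Complex.normSq_eq_norm_sq,
          Complex.normSq_add]
        congr 2
        simp only [Complex.mul_re, Complex.conj_re, Complex.conj_im]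
        ring
      rw [h2, ih, hz K, map_sum, Finset.sum_mul]
      push_cast
      ring
  rw [h1 K, sum_pairs25 (fun i j => conj (z i) * z j) K]
  have h3 : (∑ h ∈ Ico 1 K, ∑ i ∈ range (K - h), conj (z i) * z (i + h)).re ≤
      ∑ h ∈ Ico 1 K, ‖∑ i ∈ range (K - h), conj (z i) * z (i + h)‖ :=
    (Complex.re_le_norm _).trans (norm_sum_le _ _)
  linarith

/-- the difference polynomial -/
private def dif25 (p : Polynomial ℝ) (h : ℕ) : Polynomial ℝ := Polynomial.taylor (h : ℝ) p - p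

private theorem dif_eval25 (p : Polynomial ℝ) (h : ℕ) (y : ℝ) :
    (dif25 p h).eval y = p.eval (y + h) - p.eval y := by
  unfold dif25
  rw [Polynomial.eval_sub, Polynomial.taylor_eval]

private theorem dif_coeff25 (p : Polynomial ℝ) (d h : ℕ) (hp : p.natDegree ≤ d + 1) :
    (dif25 p h).coeff d = (d + 1 : ℕ) * h * p.coeff (d + 1) := by
  unfold dif25
  rw [Polynomial.coeff_sub, Polynomial.taylor_coeff]
  have h1 : (Polynomial.hasseDeriv d p).natDegree < 2 := by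
    have := Polynomial.natDegree_hasseDeriv_le p d
    omega
  rw [Polynomial.eval_eq_sum_range' h1]
  simp only [Finset.sum_range_succ, Finset.sum_range_zero, Polynomial.hasseDeriv_coeff, pow_zero,
    pow_one, zero_add, mul_one, Nat.choose_self, Nat.cast_one, one_mul]
  rw [show 1 + d = d + 1 by ring, Nat.choose_succ_self_right]
  push_cast
  ring

private theorem dif_deg25 (p : Polynomial ℝ) (d h : ℕ) (hp : p.natDegree ≤ d + 1) :
    (dif25 p h).natDegree ≤ d := by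
  rw [Polynomial.natDegree_le_iff_coeff_eq_zero]
  intro n hn
  unfold dif25
  rw [Polynomial.coeff_sub, Polynomial.taylor_coeff]
  have h1 : (Polynomial.hasseDeriv n p).natDegree < 1 := by
    have := Polynomial.natDegree_hasseDeriv_le p n
    omega
  rw [Polynomial.eval_eq_sum_range' h1]
  simp [Polynomial.hasseDeriv_coeff]

private theorem weyl_one25 : ∃ C : ℕ, ∀ δ : ℝ, 0 < δ → δ ≤ 1 / 2 → ∀ K : ℕ,
    δ⁻¹ ^ C ≤ K → ∀ p : Polynomial ℝ, p.natDegree ≤ 1 →
    δ ≤ ‖𝔼 j ∈ range K, e (p.eval (j : ℝ))‖ →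
    ∃ q : ℕ, 1 ≤ q ∧ (q : ℝ) ≤ δ⁻¹ ^ C ∧ dint (q * p.coeff 1) ≤ δ⁻¹ ^ C / (K : ℝ) ^ 1 := by
  refine ⟨1, fun δ hδ hδ2 K hK p hp hS => ⟨1, le_rfl, ?_, ?_⟩⟩
  · rw [pow_one, Nat.cast_one]
    exact (one_le_inv₀ hδ).mpr (by linarith)
  · have hx1 : 1 ≤ δ⁻¹ := (one_le_inv₀ hδ).mpr (by linarith)
    rw [pow_one] at hK
    have hK1 : (1 : ℝ) ≤ K := hx1.trans hK
    have hK1' : 1 ≤ K := by exact_mod_cast hK1
    rw [Nat.cast_one, one_mul, pow_one, pow_one]
    rcases eq_or_lt_of_le (dint_nonneg (p.coeff 1)) with h0 | hpos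
    · rw [← h0]
      positivity
    have h1 : ∀ j : ℕ, e (p.eval (j : ℝ)) = e (p.coeff 0) * e (p.coeff 1 * j) := by
      intro j
      rw [← e_add]
      congr 1
      have h2 : p.natDegree < 2 := by omega
      rw [Polynomial.eval_eq_sum_range' h2]
      simp [Finset.sum_range_succ]
    have h2 : ‖𝔼 j ∈ range K, e (p.eval (j : ℝ))‖ = ‖𝔼 j ∈ range K, e (p.coeff 1 * j)‖ := by
      simp only [h1]
      rw [← Finset.mul_expect, norm_mul, norm_e, one_mul]
    rw [h2] at hS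
    have h3 := hS.trans (norm_expect_e_le (p.coeff 1) K hK1' hpos)
    have hK0 : (0 : ℝ) < K := by linarith
    rw [le_div_iff₀ (by positivity)] at h3
    rw [le_div_iff₀ hK0]
    have h4 : δ * δ⁻¹ = 1 := mul_inv_cancel₀ hδ.ne'
    have h5 : δ * (dint (p.coeff 1) * K) ≤ δ * δ⁻¹ := by
      rw [h4]
      nlinarith
    exact le_of_mul_le_mul_left h5 hδ

private theorem weyl_step25 (d : ℕ) (hd : 1 ≤ d)
    (ih : ∃ C : ℕ, ∀ δ : ℝ, 0 < δ → δ ≤ 1 / 2 → ∀ K : ℕ,
      δ⁻¹ ^ C ≤ K → ∀ p : Polynomial ℝ, p.natDegree ≤ d →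
      δ ≤ ‖𝔼 j ∈ range K, e (p.eval (j : ℝ))‖ →
      ∃ q : ℕ, 1 ≤ q ∧ (q : ℝ) ≤ δ⁻¹ ^ C ∧ dint (q * p.coeff d) ≤ δ⁻¹ ^ C / (K : ℝ) ^ d) :
    ∃ C : ℕ, ∀ δ : ℝ, 0 < δ → δ ≤ 1 / 2 → ∀ K : ℕ,
      δ⁻¹ ^ C ≤ K → ∀ p : Polynomial ℝ, p.natDegree ≤ d + 1 →
      δ ≤ ‖𝔼 j ∈ range K, e (p.eval (j : ℝ))‖ →
      ∃ q : ℕ, 1 ≤ q ∧ (q : ℝ) ≤ δ⁻¹ ^ C ∧
        dint (q * p.coeff (d + 1)) ≤ δ⁻¹ ^ C / (K : ℝ) ^ (d + 1) := by
  obtain ⟨C', ih⟩ := ih
  refine ⟨15 * C' + 5 * d + 20, fun δ hδ hδ2 K hK p hp hS => ?_⟩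
  set x : ℝ := δ⁻¹ with hx
  have hx2 : 2 ≤ x := by
    rw [hx, le_inv_comm₀ (by norm_num) hδ]
    linarith
  have hx1 : 1 ≤ x := by linarith
  have hx0 : 0 < x := by linarith
  have hδx : δ = x⁻¹ := by rw [hx, inv_inv]
  have hpow : ∀ n : ℕ, n ≤ 15 * C' + 5 * d + 20 → x ^ n ≤ K := fun n hn =>
    (pow_le_pow_right₀ hx1 hn).trans hK
  have hK1 : (1 : ℝ) ≤ K := by
    have := hpow 0 (by omega)
    simpa using this
  have hK0 : (0 : ℝ) < K := by linarith
  have hKd : (K : ℝ) ≤ (K : ℝ) ^ d := le_self_pow₀ hK1 (by omega)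
  -- sums
  have hS1 : δ * K ≤ ‖∑ j ∈ range K, e (p.eval (j : ℝ))‖ := by
    rw [Finset.expect_eq_sum_div_card, card_range, norm_div, Complex.norm_natCast,
      le_div_iff₀ hK0] at hS
    exact hS
  set Sh : ℕ → ℂ := fun h => ∑ i ∈ range (K - h), e ((dif25 p h).eval (i : ℝ)) with hSh
  have hSh2 : ∀ h, ∑ i ∈ range (K - h), conj (e (p.eval (i : ℝ))) * e (p.eval ((i + h : ℕ) : ℝ)) = Sh h := by
    intro h
    simp only [hSh]
    apply Finset.sum_congr rfl
    intro i _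
    rw [dif_eval25, ← e_neg, ← e_add]
    congr 1
    push_cast
    ring
  have hv := vdc25 (fun j => e (p.eval (j : ℝ))) (fun j => norm_e _) K
  simp only [hSh2] at hv
  have h1 : (δ * K) ^ 2 ≤ K + 2 * ∑ h ∈ Ico 1 K, ‖Sh h‖ :=
    (pow_le_pow_left₀ (by positivity) hS1 2).trans hv
  have h2 : (K : ℝ) ≤ (δ * K) ^ 2 / 2 := by
    have h3 : x ^ 3 ≤ K := hpow 3 (by omega)
    have h4 : 2 * x ^ 2 ≤ K := by nlinarith [pow_pos hx0 2]
    have h5 : (δ * x) = 1 := by rw [hδx]; exact inv_mul_cancel₀ hx0.ne'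
    have h6 : δ ^ 2 * (2 * x ^ 2) = 2 := by
      have : δ ^ 2 * (2 * x ^ 2) = 2 * (δ * x) ^ 2 := by ring
      rw [this, h5]
      norm_num
    have h7 : 2 ≤ δ ^ 2 * K := by
      rw [← h6]
      apply mul_le_mul_of_nonneg_left h4 (by positivity)
    nlinarith
  have h3 : δ ^ 2 * K ^ 2 / 4 ≤ ∑ h ∈ Ico 1 K, ‖Sh h‖ := by nlinarith
  have hShle : ∀ h, ‖Sh h‖ ≤ ((K - h : ℕ) : ℝ) := by
    intro h
    simp only [hSh]
    refine (norm_sum_le _ _).trans (le_of_eq ?_)
    simp [norm_e]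
  set G : Finset ℕ := (Ico 1 K).filter (fun h => δ ^ 2 * K / 8 ≤ ‖Sh h‖) with hG
  have hGcard : δ ^ 2 * K / 8 ≤ G.card := by
    have h4 : ∑ h ∈ Ico 1 K, ‖Sh h‖ ≤ ∑ h ∈ Ico 1 K, ((if δ ^ 2 * K / 8 ≤ ‖Sh h‖ then (K : ℝ) else 0)
        + δ ^ 2 * K / 8) := by
      apply Finset.sum_le_sum
      intro h hh
      split_ifs with hc
      · have h5 := hShle h
        have h6 : ((K - h : ℕ) : ℝ) ≤ K := by exact_mod_cast Nat.sub_le K h
        have h7 : 0 ≤ δ ^ 2 * K / 8 := by positivity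
        linarith
      · linarith
    rw [Finset.sum_add_distrib, ← Finset.sum_filter, Finset.sum_const, Finset.sum_const,
      nsmul_eq_mul, nsmul_eq_mul, Nat.card_Ico, ← hG] at h4
    have h8 : ((K - 1 : ℕ) : ℝ) ≤ K := by exact_mod_cast Nat.sub_le K 1
    have h9 : ((K - 1 : ℕ) : ℝ) * (δ ^ 2 * K / 8) ≤ K * (δ ^ 2 * K / 8) :=
      mul_le_mul_of_nonneg_right h8 (by positivity)
    have h10 : δ ^ 2 * K / 8 * K ≤ G.card * K := by nlinarith
    exact le_of_mul_le_mul_right h10 hK0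
  -- induction hypothesis
  have hδ5 : δ ^ 5 ≤ δ ^ 2 / 8 := by
    have : δ ^ 3 ≤ (1 / 2) ^ 3 := pow_le_pow_left₀ hδ.le hδ2 3
    have h5 : δ ^ 5 = δ ^ 2 * δ ^ 3 := by ring
    rw [h5]
    have h6 : 0 ≤ δ ^ 2 := by positivity
    nlinarith
  have hδ5' : δ ^ 5 ≤ 1 / 2 := by
    have : δ ^ 2 ≤ 1 := by nlinarith
    linarith
  have hδ5inv : (δ ^ 5)⁻¹ = x ^ 5 := by rw [hδx]; simp
  set ε0 : ℝ := x ^ (5 * C' + 5 * d) / (K : ℝ) ^ d with hε0
  have hex : ∀ h ∈ G, ∃ q : ℕ, q ∈ Icc 1 ⌊x ^ (5 * C')⌋₊ ∧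
      dint (q * (((d + 1 : ℕ) : ℝ) * h * p.coeff (d + 1))) ≤ ε0 := by
    intro h hh
    rw [hG, mem_filter, mem_Ico] at hh
    have hKh : δ ^ 5 * K ≤ ((K - h : ℕ) : ℝ) := by
      have h5 := hShle h
      have h6 : δ ^ 5 * K ≤ δ ^ 2 * K / 8 := by nlinarith
      linarith [hh.2]
    have hKh0 : (0 : ℝ) < ((K - h : ℕ) : ℝ) := lt_of_lt_of_le (by positivity) hKh
    obtain ⟨q, hq1, hq2, hq3⟩ := ih (δ ^ 5) (by positivity) hδ5' (K - h) (by
        rw [hδ5inv, ← pow_mul]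
        have h7 : x ^ (5 * C' + 5) ≤ K := hpow _ (by omega)
        have h8 : δ ^ 5 * x ^ (5 * C' + 5) = x ^ (5 * C') := by
          rw [pow_add, hδx]
          field_simp
        calc x ^ (5 * C') = δ ^ 5 * x ^ (5 * C' + 5) := h8.symm
          _ ≤ δ ^ 5 * K := mul_le_mul_of_nonneg_left h7 (by positivity)
          _ ≤ _ := hKh) (dif25 p h) (dif_deg25 p d h hp) (by
        rw [Finset.expect_eq_sum_div_card, card_range, norm_div, Complex.norm_natCast,
          le_div_iff₀ hKh0]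
        have h9 : ((K - h : ℕ) : ℝ) ≤ K := by exact_mod_cast Nat.sub_le K h
        have h10 : ‖∑ i ∈ range (K - h), e (Polynomial.eval (i : ℝ) (dif25 p h))‖ = ‖Sh h‖ := rfl
        rw [h10]
        calc δ ^ 5 * ((K - h : ℕ) : ℝ) ≤ δ ^ 5 * K := mul_le_mul_of_nonneg_left h9 (by positivity)
          _ ≤ δ ^ 2 / 8 * K := mul_le_mul_of_nonneg_right hδ5 hK0.le
          _ = δ ^ 2 * K / 8 := by ring
          _ ≤ _ := hh.2)
    rw [hδ5inv, ← pow_mul] at hq2 hq3
    refine ⟨q, ?_, ?_⟩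
    · rw [mem_Icc]
      exact ⟨hq1, Nat.le_floor hq2⟩
    · rw [dif_coeff25 p d h hp] at hq3
      refine hq3.trans ?_
      rw [hε0, div_le_div_iff₀ (by positivity) (by positivity)]
      have h11 : (δ ^ 5 * K) ^ d ≤ ((K - h : ℕ) : ℝ) ^ d := pow_le_pow_left₀ (by positivity) hKh d
      have h12 : x ^ (5 * C' + 5 * d) * (δ ^ 5 * K) ^ d = x ^ (5 * C') * (K : ℝ) ^ d := by
        rw [pow_add, mul_pow, ← pow_mul, hδx]
        have : x ^ (5 * d) * (x⁻¹) ^ (5 * d) = 1 := by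
          rw [← mul_pow, mul_inv_cancel₀ hx0.ne', one_pow]
        calc x ^ (5 * C') * x ^ (5 * d) * ((x⁻¹) ^ (5 * d) * (K : ℝ) ^ d)
            = x ^ (5 * C') * (x ^ (5 * d) * (x⁻¹) ^ (5 * d)) * (K : ℝ) ^ d := by ring
          _ = x ^ (5 * C') * (K : ℝ) ^ d := by rw [this, mul_one]
      calc x ^ (5 * C') * (K : ℝ) ^ d = x ^ (5 * C' + 5 * d) * (δ ^ 5 * K) ^ d := h12.symm
        _ ≤ x ^ (5 * C' + 5 * d) * ((K - h : ℕ) : ℝ) ^ d :=
          mul_le_mul_of_nonneg_left h11 (by positivity)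
  choose! qf hqf1 hqf2 using hex
  set η : ℝ := δ ^ (5 * C' + 5) with hη
  have hη0 : 0 < η := by positivity
  have hη1 : η ≤ 1 := pow_le_one₀ hδ.le (by linarith)
  have hηinv : η⁻¹ = x ^ (5 * C' + 5) := by rw [hη, hδx]; simp
  have hne : (Icc 1 ⌊x ^ (5 * C')⌋₊).Nonempty := by
    rw [nonempty_Icc]
    exact Nat.le_floor (by simpa using one_le_pow₀ hx1)
  have hpig : ((Icc 1 ⌊x ^ (5 * C')⌋₊).card) • (η * K) ≤ (G.card : ℝ) := by
    rw [Nat.card_Icc, nsmul_eq_mul, Nat.add_sub_cancel]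
    have h5 : ((⌊x ^ (5 * C')⌋₊ : ℕ) : ℝ) ≤ x ^ (5 * C') := Nat.floor_le (by positivity)
    calc ((⌊x ^ (5 * C')⌋₊ : ℕ) : ℝ) * (η * K) ≤ x ^ (5 * C') * (η * K) :=
          mul_le_mul_of_nonneg_right h5 (by positivity)
      _ = δ ^ 5 * K := by
          rw [hη, pow_add, hδx]
          have : x ^ (5 * C') * (x⁻¹) ^ (5 * C') = 1 := by
            rw [← mul_pow, mul_inv_cancel₀ hx0.ne', one_pow]
          calc x ^ (5 * C') * ((x⁻¹) ^ (5 * C') * (x⁻¹) ^ 5 * K)
              = (x ^ (5 * C') * (x⁻¹) ^ (5 * C')) * ((x⁻¹) ^ 5 * K) := by ring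
            _ = (x⁻¹) ^ 5 * K := by rw [this, one_mul]
      _ ≤ δ ^ 2 / 8 * K := mul_le_mul_of_nonneg_right hδ5 hK0.le
      _ = δ ^ 2 * K / 8 := by ring
      _ ≤ _ := hGcard
  obtain ⟨q, hq, hcard⟩ :=
    Finset.exists_le_card_fiber_of_nsmul_le_card_of_maps_to hqf1 hne hpig
  rw [mem_Icc] at hq
  have hq2 : (q : ℝ) ≤ x ^ (5 * C') :=
    (Nat.cast_le.mpr hq.2).trans (Nat.floor_le (by positivity))
  obtain ⟨q', hq'1, hq'2, hq'3⟩ := vino ((q : ℝ) * ((d + 1 : ℕ) : ℝ) * p.coeff (d + 1)) η ε0 K hη0 hη1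
    (by
      rw [div_eq_mul_inv, hηinv]
      have h5 : x ^ (5 * C' + 8) ≤ K := hpow _ (by omega)
      refine le_trans ?_ h5
      have h6 : x ^ (5 * C' + 8) = x ^ (5 * C' + 5) * x ^ 3 := by ring
      rw [h6, mul_comm]
      apply mul_le_mul_of_nonneg_left _ (by positivity)
      calc (8 : ℝ) = 2 ^ 3 := by norm_num
        _ ≤ x ^ 3 := pow_le_pow_left₀ (by norm_num) hx2 3)
    (by positivity)
    (by
      rw [hε0, div_le_div_iff₀ (by positivity) (by norm_num)]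
      have h5 : x ^ (10 * C' + 5 * d + 10) ≤ (K : ℝ) ^ d := (hpow _ (by omega)).trans hKd
      have h6 : x ^ (5 * C' + 5 * d) * 32 ≤ η * x ^ (10 * C' + 5 * d + 10) := by
        have h7 : η * x ^ (10 * C' + 5 * d + 10) = x ^ (5 * C' + 5 * d) * x ^ 5 := by
          have h8 : η * x ^ (5 * C' + 5) = 1 := by
            rw [← hηinv]
            exact mul_inv_cancel₀ hη0.ne'
          calc η * x ^ (10 * C' + 5 * d + 10)
              = (η * x ^ (5 * C' + 5)) * (x ^ (5 * C' + 5 * d) * x ^ 5) := by ring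
            _ = _ := by rw [h8, one_mul]
        rw [h7]
        apply mul_le_mul_of_nonneg_left _ (by positivity)
        calc (32 : ℝ) = 2 ^ 5 := by norm_num
          _ ≤ x ^ 5 := pow_le_pow_left₀ (by norm_num) hx2 5
      exact h6.trans (mul_le_mul_of_nonneg_left h5 hη0.le))
    (G.filter (fun h => qf h = q))
    (by
      intro h hh
      rw [mem_filter] at hh
      have h5 := hh.1
      rw [hG, mem_filter, mem_Ico] at h5
      refine ⟨h5.1.1, h5.1.2, ?_⟩
      have h6 := hqf2 h hh.1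
      rw [hh.2] at h6
      have h7 : (q : ℝ) * ((d + 1 : ℕ) : ℝ) * p.coeff (d + 1) * h =
          q * (((d + 1 : ℕ) : ℝ) * h * p.coeff (d + 1)) := by ring
      rw [h7]
      exact h6)
    hcard
  refine ⟨q' * q * (d + 1), ?_, ?_, ?_⟩
  · have : 0 < q' * q * (d + 1) := by
      have := hq.1
      positivity
    omega
  · have h5 : (q' : ℝ) ≤ x ^ 2 * x ^ (5 * C' + 5) := by
      refine hq'2.trans ?_
      rw [div_eq_mul_inv, hηinv]
      apply mul_le_mul_of_nonneg_right _ (by positivity)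
      nlinarith
    have h6 : ((d + 1 : ℕ) : ℝ) ≤ x ^ (d + 1) := by
      have h7 : d + 1 ≤ 2 ^ (d + 1) := (Nat.lt_two_pow_self).le
      calc ((d + 1 : ℕ) : ℝ) ≤ ((2 ^ (d + 1) : ℕ) : ℝ) := by exact_mod_cast h7
        _ = (2 : ℝ) ^ (d + 1) := by push_cast; ring
        _ ≤ x ^ (d + 1) := pow_le_pow_left₀ (by norm_num) hx2 _
    have h8 : ((q' * q * (d + 1) : ℕ) : ℝ) = (q' : ℝ) * q * ((d + 1 : ℕ) : ℝ) := by push_cast; ring
    rw [h8]
    calc (q' : ℝ) * q * ((d + 1 : ℕ) : ℝ)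
        ≤ (x ^ 2 * x ^ (5 * C' + 5)) * x ^ (5 * C') * x ^ (d + 1) := by
          apply mul_le_mul (mul_le_mul h5 hq2 (by positivity) (by positivity)) h6 (by positivity)
            (by positivity)
      _ = x ^ (10 * C' + 7 + (d + 1)) := by ring
      _ ≤ x ^ (15 * C' + 5 * d + 20) := pow_le_pow_right₀ hx1 (by omega)
  · have h5 : ((q' * q * (d + 1) : ℕ) : ℝ) * p.coeff (d + 1) =
        q' * ((q : ℝ) * ((d + 1 : ℕ) : ℝ) * p.coeff (d + 1)) := by push_cast; ring
    rw [h5]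
    refine hq'3.trans ?_
    have h6 : 128 * ε0 / (η ^ 2 * K) = 128 * x ^ (15 * C' + 5 * d + 10) / (K : ℝ) ^ (d + 1) := by
      have h7 : η = (x ^ (5 * C' + 5))⁻¹ := by rw [← hηinv, inv_inv]
      rw [hε0, h7]
      field_simp
      ring
    rw [h6]
    apply div_le_div_of_nonneg_right _ (by positivity)
    calc 128 * x ^ (15 * C' + 5 * d + 10) ≤ x ^ 7 * x ^ (15 * C' + 5 * d + 10) := by
          apply mul_le_mul_of_nonneg_right _ (by positivity)
          calc (128 : ℝ) = 2 ^ 7 := by norm_num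
            _ ≤ x ^ 7 := pow_le_pow_left₀ (by norm_num) hx2 7
      _ = x ^ (15 * C' + 5 * d + 17) := by ring
      _ ≤ x ^ (15 * C' + 5 * d + 20) := pow_le_pow_right₀ hx1 (by omega)

theorem weyl (d : ℕ) (hd : 1 ≤ d) : ∃ C : ℕ, ∀ δ : ℝ, 0 < δ → δ ≤ 1 / 2 → ∀ K : ℕ,
    δ⁻¹ ^ C ≤ K → ∀ p : Polynomial ℝ, p.natDegree ≤ d →
    δ ≤ ‖𝔼 j ∈ range K, e (p.eval (j : ℝ))‖ →
    ∃ q : ℕ, 1 ≤ q ∧ (q : ℝ) ≤ δ⁻¹ ^ C ∧ dint (q * p.coeff d) ≤ δ⁻¹ ^ C / (K : ℝ) ^ d := by
  induction d, hd using Nat.le_induction with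
  | base => exact weyl_one25
  | succ d hd ih => exact weyl_step25 d hd ih

end

end Pool.Agent.Helper67.NX2
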